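import Pool.Agent.PQP.StmtsX

/-! Squad PQP, row KWB (helper81): Kazdan-Warner on the original sphere, seen in the picture `x`. -/

set_option autoImplicit false

open scoped InnerProductSpace Topology ContDiff Manifold
open MeasureTheory Filter Set

noncomputable section

namespace Pool.Agent.PQP.H81

open Pool.Agent.Helper42_Paneitz Pool.Agent.Helper82_Vir Pool.Agent.FLX Pool.Agent.PQP

theorem sm_log {W : S4 → ℝ} (hW : Sm W) (h0 : ∀ x, 0 < W x) : Sm (fun z => Real.log (W z)) := by
  intro y hy
  have h1 : radialExt (fun x => Real.log (W x)) =ᶠ[𝓝 y] fun z => Real.log (radialExt W z) := by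
    filter_upwards [eventually_ne_zero hy] with z hz
    simp only [radialExt_apply _ hz]
  have h2 : radialExt W y ≠ 0 := by
    rw [radialExt_apply _ hy]
    exact (h0 _).ne'
  exact ((hW y hy).log h2).congr_of_eventuallyEq h1

theorem kwb (kwa : KwaStmt) (cov : CovStmt) (moa : MoaStmt) : KwbStmt := by
  intro W f b hW h0 hb hsol a
  have hb' : ‖-b‖ < 1 := by rwa [norm_neg]
  obtain ⟨a1, -, -, a4, a5, -⟩ := moa b hb
  obtain ⟨-, -, -, a4', -, -⟩ := moa (-b) hb'
  obtain ⟨-, -, c3, -⟩ := cov b hb
  obtain ⟨-, c2', -, -⟩ := cov (-b) hb'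
  -- the solution on the original sphere
  have hF : Sol W (pull (-b) f) := by
    have h1 := c2' _ _ hsol
    have h2 : (fun x => (fun x => W (mob b x)) (mob (-b) x)) = W := by
      funext x
      have h3 := a4' x
      rw [neg_neg] at h3
      exact congrArg W h3
    rwa [h2] at h1
  -- Kazdan-Warner there
  have hk := kwa W (pull (-b) f) a 0 hW h0 hF (fun v => by simp)
  have hcf : ∀ x : S4, dlog W x (cf a 0 x) = dlog W x a := by
    intro x
    unfold dlog cf
    rw [dd_add, dd_sub, dd_smul, dd_self (sm_log hW h0)]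
    simp [dd_zero]
  simp only [hcf] at hk
  -- back
  have hp : ∀ x : S4, pull b (pull (-b) f) x = f x := by
    intro x
    have e1 : pull b (pull (-b) f) x =
        f (mob (-b) (mob b x)) * Jac (-b) (mob b x) * Jac b x := rfl
    rw [e1, a4 x]
    have h5 := a5 x
    have hu := a1 x
    have hD : 0 < 1 - ‖b‖ ^ 2 := by
      have := norm_nonneg b
      nlinarith only [this, hb]
    have hJ : Jac (-b) (mob b x) * Jac b x = 1 := by
      unfold Jac
      rw [norm_neg, inner_neg_left, ← sub_eq_add_neg]
      have hv : 0 < 1 - ⟪b, (mob b x : E5)⟫_ℝ := by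
        by_contra hcon
        push Not at hcon
        have := mul_nonpos_of_nonpos_of_nonneg hcon hu.le
        linarith only [this, h5, hD]
      have h7 : (1 - ⟪b, (mob b x : E5)⟫_ℝ) ^ 4 * (1 + ⟪b, (x : E5)⟫_ℝ) ^ 4 =
          (1 - ‖b‖ ^ 2) ^ 4 := by
        rw [← mul_pow, h5]
      rw [div_mul_div_comm, h7, div_eq_one_iff_eq (pow_pos hD 4).ne']
      ring
    rw [mul_assoc, hJ, mul_one]
  have h6 := c3 (pull (-b) f) (fun z => dlog W z a)
  simp only [hp] at h6
  rw [h6]
  exact hk

end Pool.Agent.PQP.H81
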