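import Pool.Agent.PQP.StmtsE
import Pool.Agent.Helper3_FLX.Nle

/-! Squad PQP, row SBN (helper81): estimates for the nonlinearity in the norm `SB`. -/

set_option autoImplicit false

open scoped InnerProductSpace Topology ContDiff Manifold
open MeasureTheory Filter Set

noncomputable section

namespace Pool.Agent.PQP.H81

open Pool.Agent.Helper42_Paneitz Pool.Agent.Helper82_Vir Pool.Agent.FLX Pool.Agent.PQP
open Pool.Agent.FLX.H3 (exp_sub_le abs_exp_sub abs_exp_sub_lin pt)

theorem sb_mono {f : S4 → ℝ} {B B' : ℝ} (h : SB f B) (hB : B ≤ B') : SB f B' :=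
  fun x => (h x).trans hB

theorem sb_nonneg {f : S4 → ℝ} {B : ℝ} (h : SB f B) : 0 ≤ B := by
  have hx0 : Nonempty S4 :=
    ⟨⟨EuclideanSpace.single 0 1, mem_sphere_zero_iff_norm.2 (by simp)⟩⟩
  obtain ⟨x0⟩ := hx0
  exact (integral_nonneg fun y => by positivity).trans (h x0)

/-- the calculus needed here: `|F| ≤ a |q| + b` -/
theorem sb_le (sbl : SblStmt) : ∃ C : ℝ, 0 ≤ C ∧ ∀ (F q : S4 → ℝ) (a b B : ℝ), Continuous F →
    Continuous q → 0 ≤ a → 0 ≤ b → SB q B → (∀ x, |F x| ≤ a * |q x| + b) →
    SB F (a * B + C * b) := by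
  obtain ⟨⟨C, hC, s1⟩, s2, s3, s4⟩ := sbl
  refine ⟨C, hC, fun F q a b B hF hq ha hb hB h => ?_⟩
  have h1 : SB (fun x => |q x|) B := s3 (fun x => |q x|) q B hq.abs hq (fun x => by
    rw [abs_abs]) hB
  have h2 : SB (fun x => a * |q x|) (a * B) := by
    have h3 := s4 (fun x => |q x|) B a h1
    rwa [abs_of_nonneg ha] at h3
  have h4 : SB (fun _ : S4 => b) (C * b) := s1 (fun _ => b) b continuous_const (fun x => by
    rw [abs_of_nonneg hb])
  have h5 := s2 (fun x => a * |q x|) (fun _ => b) (a * B) (C * b) (by fun_prop)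
    continuous_const h2 h4
  refine s3 F (fun x => a * |q x| + b) (a * B + C * b) hF (by fun_prop) (fun x => ?_) h5
  have h6 : 0 ≤ a * |q x| + b := by positivity
  rw [abs_of_nonneg h6]
  exact h x

theorem sbn (sbl : SblStmt) (sbk : SbkStmt) : SbnStmt := by
  obtain ⟨C1, hC1, key⟩ := sb_le sbl
  obtain ⟨C2, -, sk⟩ := sbk
  refine ⟨400 * (1 + C1), by positivity, ?_⟩
  intro q h h' R D B hq hh hh' hR hR4 hhR hhR' hD hB
  have hB0 := sb_nonneg hB
  have hx0 : Nonempty S4 :=
    ⟨⟨EuclideanSpace.single 0 1, mem_sphere_zero_iff_norm.2 (by simp)⟩⟩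
  obtain ⟨x0⟩ := hx0
  have hD0 : 0 ≤ D := (abs_nonneg _).trans (hD x0)
  have hR2 : 0 ≤ R ^ 2 := sq_nonneg R
  have cN : ∀ g : S4 → ℝ, Continuous g → Continuous (Nn q g) := by
    intro g hg
    unfold Nn
    fun_prop
  refine ⟨?_, ?_, ?_⟩
  · have h1 : ∀ x, |Nn q h x| ≤ 3 * |q x| + 96 * R ^ 2 := by
      intro x
      obtain ⟨_, _, p3, p4⟩ := pt hR4 (hhR x)
      have e : Nn q h x = q x * Real.exp (4 * h x) +
          6 * (Real.exp (4 * h x) - 1 - 4 * h x) := by
        unfold Nn
        ring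
      rw [e]
      refine (abs_add_le _ _).trans ?_
      have a1 : |q x * Real.exp (4 * h x)| ≤ 3 * |q x| := by
        rw [abs_mul, abs_of_pos (Real.exp_pos _)]
        nlinarith only [abs_nonneg (q x), p3]
      have a2 : |6 * (Real.exp (4 * h x) - 1 - 4 * h x)| ≤ 96 * R ^ 2 := by
        rw [abs_mul]
        norm_num
        linarith only [p4]
      linarith only [a1, a2]
    refine sb_mono (key _ q 3 (96 * R ^ 2) B (cN h hh) hq (by norm_num) (by positivity) hB h1) ?_
    have b1 : 0 ≤ C1 * B := by positivity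
    have b2 : 0 ≤ C1 * R ^ 2 := by positivity
    nlinarith only [b1, b2, hB0, hR2]
  · have h1 : ∀ x, |Nn q h x - Nn q h' x| ≤ (12 * D) * |q x| + 192 * R * D := by
      intro x
      obtain ⟨p1, p2, _, _⟩ := pt hR4 (hhR x)
      obtain ⟨r1, r2, _, _⟩ := pt hR4 (hhR' x)
      have e : Nn q h x - Nn q h' x = q x * (Real.exp (4 * h x) - Real.exp (4 * h' x)) +
          6 * (Real.exp (4 * h x) - Real.exp (4 * h' x) - (4 * h x - 4 * h' x)) := by
        unfold Nn
        ring
      have e2 : |4 * h x - 4 * h' x| ≤ 4 * D := by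
        rw [← mul_sub, abs_mul]
        norm_num
        linarith only [hD x]
      have a0 := abs_exp_sub p1 r1
      have a1 : |q x * (Real.exp (4 * h x) - Real.exp (4 * h' x))| ≤ (12 * D) * |q x| := by
        rw [abs_mul]
        nlinarith only [abs_nonneg (q x), a0, e2]
      have a3 := abs_exp_sub_lin p2 r2
      have a4 : 8 * R * |4 * h x - 4 * h' x| ≤ 8 * R * (4 * D) :=
        mul_le_mul_of_nonneg_left e2 (by positivity)
      have a2 : |6 * (Real.exp (4 * h x) - Real.exp (4 * h' x) - (4 * h x - 4 * h' x))| ≤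
          192 * R * D := by
        rw [abs_mul]
        norm_num
        linarith only [a3, a4]
      rw [e]
      refine (abs_add_le _ _).trans ?_
      linarith only [a1, a2]
    refine sb_mono (key _ q (12 * D) (192 * R * D) B ((cN h hh).sub (cN h' hh')) hq
      (by positivity) (by positivity) hB h1) ?_
    have b1 : 0 ≤ B * D := by positivity
    have b2 : 0 ≤ R * D := by positivity
    have b3 : 0 ≤ C1 * (B * D) := by positivity
    have b4 : 0 ≤ C1 * (R * D) := by positivity
    nlinarith only [b1, b2, b3, b4]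
  · have hi : ∀ g : S4 → ℝ, Continuous g → Integrable (fun y : S4 => g y • (y : E5)) sig := by
      intro g hg
      have hc : Continuous fun y : S4 => g y • (y : E5) := hg.smul continuous_subtype_val
      exact hc.integrable_of_hasCompactSupport (HasCompactSupport.of_compactSpace _)
    rw [← integral_sub (hi _ (cN h hh)) (hi _ hq)]
    have h1 : ∀ y : S4, |Nn q h y - q y| ≤ 8 * R * |q y| + 96 * R ^ 2 := by
      intro y
      obtain ⟨_, p2, _, p4⟩ := pt hR4 (hhR y)
      have e : Nn q h y - q y = q y * (Real.exp (4 * h y) - 1) +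
          6 * (Real.exp (4 * h y) - 1 - 4 * h y) := by
        unfold Nn
        ring
      rw [e]
      refine (abs_add_le _ _).trans ?_
      have a1 : |q y * (Real.exp (4 * h y) - 1)| ≤ 8 * R * |q y| := by
        rw [abs_mul]
        nlinarith only [abs_nonneg (q y), p2]
      have a2 : |6 * (Real.exp (4 * h y) - 1 - 4 * h y)| ≤ 96 * R ^ 2 := by
        rw [abs_mul]
        norm_num
        linarith only [p4]
      linarith only [a1, a2]
    have h2 := key (fun y => Nn q h y - q y) q (8 * R) (96 * R ^ 2) B ((cN h hh).sub hq) hq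
      (by positivity) (by positivity) hB h1
    have h3 := (sk _ _ ((cN h hh).sub hq) h2).2.2
    have h4 : ∫ y : S4, (Nn q h y • (y : E5) - q y • (y : E5)) ∂sig =
        ∫ y : S4, (Nn q h y - q y) • (y : E5) ∂sig :=
      integral_congr_ae (Eventually.of_forall fun y => (sub_smul _ _ _).symm)
    rw [h4]
    refine h3.trans ?_
    have b1 : 0 ≤ R * B := by positivity
    have b3 : 0 ≤ C1 * (R * B) := by positivity
    have b4 : 0 ≤ C1 * R ^ 2 := by positivity
    nlinarith only [b1, b3, b4, hR2]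

end Pool.Agent.PQP.H81
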